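import Pool.Agent.H.MP_34cb49_gt.Defs

set_option linter.unusedSimpArgs false

open scoped ContDiff Topology

namespace Pool.Agent.H.MP_34cb49_gt

lemma pd_const (m : Fin 2) (c : ℝ) (x : W) : pd m (fun _ => c) x = 0 := by
  simp [pd]

lemma pd_add (m : Fin 2) (f g : W → ℝ) (x : W) (hf : DifferentiableAt ℝ f x)
    (hg : DifferentiableAt ℝ g x) : pd m (fun z => f z + g z) x = pd m f x + pd m g x := by
  unfold pd
  rw [fderiv_fun_add hf hg]
  rfl

lemma pd_mul (m : Fin 2) (f g : W → ℝ) (x : W) (hf : DifferentiableAt ℝ f x)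
    (hg : DifferentiableAt ℝ g x) :
    pd m (fun z => f z * g z) x = pd m f x * g x + f x * pd m g x := by
  unfold pd
  rw [fderiv_fun_mul hf hg]
  simp only [add_apply, smul_apply, smul_eq_mul]
  ring

lemma pd_cmul (m : Fin 2) (c : ℝ) (g : W → ℝ) (x : W) (hg : DifferentiableAt ℝ g x) :
    pd m (fun z => c * g z) x = c * pd m g x := by
  rw [pd_mul m (fun _ => c) g x (by fun_prop) hg, pd_const]
  ring

lemma pd_comp (m : Fin 2) {h : ℝ → ℝ} {h' : ℝ} (g : W → ℝ) (x : W)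
    (hh : HasDerivAt h h' (g x)) (hg : DifferentiableAt ℝ g x) :
    pd m (fun z => h (g z)) x = h' * pd m g x := by
  unfold pd
  have := hh.comp_hasFDerivAt x hg.hasFDerivAt
  have h2 : fderiv ℝ (fun z => h (g z)) x = h' • fderiv ℝ g x := this.fderiv
  rw [h2]
  simp

lemma pd_coord (m j : Fin 2) (x : W) : pd m (fun z : W => z j) x = if j = m then 1 else 0 := by
  have h1 : HasFDerivAt (fun z : W => z j)
      (ContinuousLinearMap.proj (R := ℝ) (φ := fun _ : Fin 2 => ℝ) j) x :=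
    hasFDerivAt_apply j x
  unfold pd
  rw [h1.fderiv]
  simp [Pi.single_apply]

lemma pd_congr (m : Fin 2) {f g : W → ℝ} {x : W} (h : f =ᶠ[𝓝 x] g) : pd m f x = pd m g x := by
  unfold pd
  rw [h.fderiv_eq]

lemma pd_smooth {f : W → ℝ} (hf : ContDiff ℝ ∞ f) (m : Fin 2) : ContDiff ℝ ∞ (pd m f) := by
  have h := hf.fderiv_right (m := ∞) (by simp)
  exact h.clm_apply contDiff_const

def dl (i j : Fin 2) : ℝ := if i = j then 1 else 0

noncomputable def conf (φ : W → ℝ) : Met := fun x =>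
  Matrix.of fun i j => dl i j * Real.exp (2 * φ x)

lemma conf_diag (φ : W → ℝ) (x : W) :
    conf φ x = Matrix.diagonal fun _ => Real.exp (2 * φ x) := by
  ext i j
  fin_cases i <;> fin_cases j <;> simp [conf, dl]

lemma conf_det (φ : W → ℝ) (x : W) : (conf φ x).det = Real.exp (2 * φ x) ^ 2 := by
  rw [conf_diag]
  simp

lemma conf_inv (φ : W → ℝ) (x : W) :
    (conf φ x)⁻¹ = Matrix.diagonal fun _ => (Real.exp (2 * φ x))⁻¹ := by
  apply Matrix.inv_eq_right_inv
  rw [conf_diag, Matrix.diagonal_mul_diagonal, ← Matrix.diagonal_one]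
  simp

lemma conf_metric {φ : W → ℝ} (hφ : ContDiff ℝ ∞ φ) : IsMetric (conf φ) := by
  refine ⟨fun i j => ?_, fun x => ?_⟩
  · simp only [conf, Matrix.of_apply]
    fun_prop
  · rw [conf_diag, Matrix.posDef_diagonal_iff]
    exact fun _ => Real.exp_pos _

lemma conf_sq (φ : W → ℝ) (x v : W) :
    sq (conf φ) x v = Real.exp (2 * φ x) * (v 0 ^ 2 + v 1 ^ 2) := by
  simp [sq, conf, dl, Fin.sum_univ_two]
  ring

lemma conf_chr {φ : W → ℝ} (hφ : ContDiff ℝ ∞ φ) (x : W) (a i j : Fin 2) :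
    chr (conf φ) x a i j = dl a i * pd j φ x + dl a j * pd i φ x + -dl i j * pd a φ x := by
  have hd : DifferentiableAt ℝ φ x := hφ.differentiable (by simp) x
  have h1 : ∀ m i j, pd m (fun z => conf φ z i j) x
      = dl i j * (Real.exp (2 * φ x) * (2 * pd m φ x)) := by
    intro m i j
    simp only [conf, Matrix.of_apply]
    rw [pd_cmul _ _ _ _ (by fun_prop),
      pd_comp m (fun z => 2 * φ z) x (Real.hasDerivAt_exp _) (by fun_prop), pd_cmul _ _ _ _ hd]
  unfold chr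
  have h2 := (Real.exp_pos (2 * φ x)).ne'
  simp only [h1, conf_inv, Fin.sum_univ_two]
  fin_cases a <;> fin_cases i <;> fin_cases j <;> simp [dl] <;> field_simp

lemma conf_gauss {φ : W → ℝ} (hφ : ContDiff ℝ ∞ φ) (x : W) :
    max (gauss (conf φ) x) 0 * Real.sqrt (conf φ x).det
      = max (-(pd 0 (pd 0 φ) x + pd 1 (pd 1 φ) x)) 0 := by
  have hd : ∀ m, DifferentiableAt ℝ (pd m φ) x := fun m =>
    (pd_smooth hφ m).differentiable (by simp) x
  have h1 : ∀ m a i j, pd m (fun z => chr (conf φ) z a i j) x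
      = dl a i * pd m (pd j φ) x + dl a j * pd m (pd i φ) x + -dl i j * pd m (pd a φ) x := by
    intro m a i j
    simp only [conf_chr hφ]
    have := hd i
    have := hd j
    have := hd a
    rw [pd_add _ _ _ _ (by fun_prop) (by fun_prop), pd_add _ _ _ _ (by fun_prop) (by fun_prop),
      pd_cmul _ _ _ _ (hd j), pd_cmul _ _ _ _ (hd i), pd_cmul _ _ _ _ (hd a)]
  have h2 := Real.exp_pos (2 * φ x)
  have h3 : gauss (conf φ) x * Real.exp (2 * φ x) = -(pd 0 (pd 0 φ) x + pd 1 (pd 1 φ) x) := by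
    unfold gauss riem
    simp only [h1]
    simp only [conf_chr hφ, conf_det, Fin.sum_univ_two]
    simp [conf, dl]
    field_simp
    ring
  rw [conf_det, Real.sqrt_sq h2.le, ← h3, max_mul_of_nonneg _ _ h2.le, zero_mul]

noncomputable def rr (x : W) : ℝ := x 0 ^ 2 + x 1 ^ 2

noncomputable def psi (x : W) : ℝ := rr x + expNegInvGlue (1 - rr x)

noncomputable def LL (x : W) : ℝ := -(1 / 2) * Real.log (psi x)

lemma rr_nonneg (x : W) : 0 ≤ rr x := by unfold rr; positivity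

lemma psi_pos (x : W) : 0 < psi x := by
  unfold psi
  rcases lt_or_ge (rr x) 1 with h | h
  · have := expNegInvGlue.pos_of_pos (x := 1 - rr x) (by linarith)
    linarith [rr_nonneg x]
  · linarith [expNegInvGlue.nonneg (1 - rr x)]

lemma psi_le (x : W) : psi x ≤ 1 + rr x := by
  unfold psi expNegInvGlue
  split_ifs with h
  · linarith
  · have : Real.exp (-(1 - rr x)⁻¹) ≤ 1 := by
      rw [Real.exp_le_one_iff, neg_nonpos, inv_nonneg]
      linarith
    linarith

@[fun_prop] lemma cd_rr {k : WithTop ℕ∞} : ContDiff ℝ k rr := by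
  unfold rr
  fun_prop

lemma cd_LL : ContDiff ℝ ∞ LL := by
  unfold LL
  refine contDiff_const.mul (ContDiff.log ?_ fun x => (psi_pos x).ne')
  unfold psi
  exact cd_rr.add (expNegInvGlue.contDiff.comp (contDiff_const.sub cd_rr))

lemma pd_rr (m : Fin 2) (x : W) : pd m rr x = 2 * x m := by
  unfold rr
  simp only [pow_two]
  rw [pd_add _ _ _ _ (by fun_prop) (by fun_prop), pd_mul _ _ _ _ (by fun_prop) (by fun_prop),
    pd_mul _ _ _ _ (by fun_prop) (by fun_prop), pd_coord, pd_coord]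
  fin_cases m <;> simp <;> ring

lemma out_nhds {x : W} (hx : 1 < rr x) : ∀ᶠ z in 𝓝 x, 1 < rr z :=
  (cd_rr (k := 0)).continuous.continuousAt.eventually (lt_mem_nhds hx)

lemma pd_LL {x : W} (hx : 1 < rr x) (m : Fin 2) : pd m LL x = -(x m * (rr x)⁻¹) := by
  have h1 : LL =ᶠ[𝓝 x] fun z => -(1 / 2) * Real.log (rr z) := by
    filter_upwards [out_nhds hx] with z hz
    rw [LL, psi, expNegInvGlue.zero_of_nonpos (by linarith), add_zero]
  have h0 : rr x ≠ 0 := by linarith
  have hd : DifferentiableAt ℝ rr x := (cd_rr (k := 1)).differentiable (by simp) x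
  rw [pd_congr m h1, pd_cmul _ _ _ _ (hd.log h0), pd_comp m rr x (Real.hasDerivAt_log h0) hd,
    pd_rr]
  ring

lemma lap_LL {x : W} (hx : 1 < rr x) : pd 0 (pd 0 LL) x + pd 1 (pd 1 LL) x = 0 := by
  have h0 : rr x ≠ 0 := by linarith
  have hd : DifferentiableAt ℝ rr x := (cd_rr (k := 1)).differentiable (by simp) x
  have h1 : ∀ m, pd m (pd m LL) x = -((rr x)⁻¹ + x m * (-(rr x ^ 2)⁻¹ * (2 * x m))) := by
    intro m
    have h2 : pd m LL =ᶠ[𝓝 x] fun z => -1 * (z m * (rr z)⁻¹) := by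
      filter_upwards [out_nhds hx] with z hz
      rw [pd_LL hz, neg_one_mul]
    have h3 : DifferentiableAt ℝ (fun z => (rr z)⁻¹) x := hd.inv h0
    rw [pd_congr m h2, pd_cmul _ _ _ _ (by fun_prop), pd_mul _ _ _ _ (by fun_prop) h3,
      pd_comp m rr x (hasDerivAt_inv h0) hd, pd_rr, pd_coord]
    simp
  rw [h1, h1]
  have h4 : rr x = x 0 ^ 2 + x 1 ^ 2 := rfl
  field_simp
  rw [h4]
  ring

lemma fin_int : ∫⁻ x, ENNReal.ofReal (max (-(pd 0 (pd 0 LL) x + pd 1 (pd 1 LL) x)) 0) < ⊤ := by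
  have hc : Continuous fun x => max (-(pd 0 (pd 0 LL) x + pd 1 (pd 1 LL) x)) 0 :=
    (((pd_smooth (pd_smooth cd_LL 0) 0).continuous.add
      (pd_smooth (pd_smooth cd_LL 1) 1).continuous).neg).max continuous_const
  have hs : HasCompactSupport fun x => max (-(pd 0 (pd 0 LL) x + pd 1 (pd 1 LL) x)) 0 := by
    refine HasCompactSupport.intro (isCompact_closedBall (0 : W) 1) fun x hx => ?_
    have : 1 < rr x := by
      by_contra h
      apply hx
      rw [mem_closedBall_zero_iff, pi_norm_le_iff_of_nonneg zero_le_one]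
      intro i
      rw [Real.norm_eq_abs, ← sq_le_one_iff_abs_le_one]
      unfold rr at h
      have h5 : x 0 ^ 2 ≤ 1 := by nlinarith [sq_nonneg (x 1)]
      have h6 : x 1 ^ 2 ≤ 1 := by nlinarith [sq_nonneg (x 0)]
      fin_cases i
      exacts [h5, h6]
    rw [lap_LL this]
    simp
  exact (hc.integrable_of_hasCompactSupport hs).lintegral_lt_top

noncomputable def gm (α : ℝ) : Met := conf fun x => α * LL x

lemma cd_aL (α : ℝ) : ContDiff ℝ ∞ fun x => α * LL x := contDiff_const.mul cd_LL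

lemma pd_aL (α : ℝ) (m : Fin 2) : pd m (fun x => α * LL x) = fun x => α * pd m LL x := by
  ext x
  exact pd_cmul _ _ _ _ (cd_LL.differentiable (by simp) x)

lemma posCurv_small {ε : ℝ} (hε : 0 < ε) : ∃ α0 > 0, ∀ α, 0 < α → α < α0 →
    posCurv (gm α) < ENNReal.ofReal ε := by
  set C := ∫⁻ x, ENNReal.ofReal (max (-(pd 0 (pd 0 LL) x + pd 1 (pd 1 LL) x)) 0) with hC
  have hC0 : 0 ≤ C.toReal := ENNReal.toReal_nonneg
  refine ⟨ε / (C.toReal + 1), by positivity, fun α h0 h1 => ?_⟩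
  have h2 : posCurv (gm α) = ENNReal.ofReal α * C := by
    rw [hC, ← MeasureTheory.lintegral_const_mul' _ _ ENNReal.ofReal_ne_top]
    unfold posCurv gm
    congr 1
    ext x
    rw [conf_gauss (cd_aL α), ← ENNReal.ofReal_mul h0.le, pd_aL, pd_aL,
      pd_cmul _ _ _ _ ((pd_smooth cd_LL 0).differentiable (by simp) x),
      pd_cmul _ _ _ _ ((pd_smooth cd_LL 1).differentiable (by simp) x), mul_max_of_nonneg _ _ h0.le]
    congr 2 <;> ring
  have hCt : C ≠ ⊤ := fin_int.ne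
  rw [h2, ← ENNReal.ofReal_toReal hCt, ← ENNReal.ofReal_mul h0.le,
    ENNReal.ofReal_lt_ofReal_iff hε]
  rw [lt_div_iff₀ (by positivity)] at h1
  nlinarith

lemma gm_lower {α : ℝ} (h0 : 0 ≤ α) (h1 : α ≤ 1) (x v : W) :
    (v 0 ^ 2 + v 1 ^ 2) / (1 + (x 0 ^ 2 + x 1 ^ 2)) ≤ sq (gm α) x v := by
  rw [gm, conf_sq, div_eq_inv_mul]
  refine mul_le_mul_of_nonneg_right ?_ (by positivity)
  change (1 + rr x)⁻¹ ≤ _
  have h2 := rr_nonneg x
  have h3 : Real.log (psi x) ≤ Real.log (1 + rr x) := Real.log_le_log (psi_pos x) (psi_le x)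
  have h4 : 0 ≤ Real.log (1 + rr x) := Real.log_nonneg (by linarith)
  rw [← Real.exp_log (x := (1 + rr x)⁻¹) (by positivity), Real.log_inv, Real.exp_le_exp, LL]
  nlinarith

lemma gm_chr (α : ℝ) {x : W} (hx : 1 < rr x) (a i j : Fin 2) : chr (gm α) x a i j
    = -α * (rr x)⁻¹ * (dl a i * x j + dl a j * x i - dl i j * x a) := by
  rw [gm, conf_chr (cd_aL α)]
  simp only [pd_aL, pd_LL hx]
  ring

end Pool.Agent.H.MP_34cb49_gt
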