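import Pool.Agent.H.MP_34cb49_gt.A

set_option linter.unusedSimpArgs false

open scoped ContDiff Topology ComplexConjugate
open Complex

namespace Pool.Agent.H.MP_34cb49_gt

noncomputable def toW : ℂ →L[ℝ] W := ContinuousLinearMap.pi ![reCLM, imCLM]

@[simp] lemma toW0 (z : ℂ) : toW z 0 = z.re := rfl
@[simp] lemma toW1 (z : ℂ) : toW z 1 = z.im := rfl

lemma toW_inj {z w : ℂ} (h : toW z = toW w) : z = w :=
  Complex.ext (congrFun h 0) (congrFun h 1)

noncomputable def FF (p : ℝ) (z : ℂ) : ℂ := -exp (p * log (-z))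

lemma FF_ne (p : ℝ) (z : ℂ) : FF p z ≠ 0 := neg_ne_zero.2 (exp_ne_zero _)

lemma FF_deriv (p : ℝ) {z : ℂ} (hz : -z ∈ slitPlane) : HasDerivAt (FF p) (p * FF p z * z⁻¹) z := by
  have h1 : HasDerivAt (fun w : ℂ => -w) (-1) z := (hasDerivAt_id z).neg
  have h2 := (((h1.clog hz).const_mul (p : ℂ)).cexp).neg
  have : z ≠ 0 := fun h => slitPlane_ne_zero hz (by simp [h])
  have h3 : p * FF p z * z⁻¹ = -(cexp (p * log (-z)) * (p * (-1 / -z))) := by
    rw [FF]
    field_simp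
  rw [h3]
  exact h2

lemma FF_rr {p : ℝ} (hp : 0 < p) {z : ℂ} (hz : 1 < ‖z‖) : 1 < rr (toW (FF p z)) := by
  have h1 : 1 < ‖FF p z‖ := by
    rw [FF, norm_neg, norm_exp, Real.one_lt_exp_iff]
    simp only [mul_re, ofReal_re, ofReal_im, log_re, norm_neg, zero_mul, sub_zero]
    exact mul_pos hp (Real.log_pos hz)
  have h2 : rr (toW (FF p z)) = ‖FF p z‖ ^ 2 := by
    rw [Complex.sq_norm, normSq_apply, rr, toW0, toW1]
    ring
  rw [h2]
  nlinarith

noncomputable def seg (p : ℝ) (z v : ℂ) (t : ℝ) : W := toW (FF p (z + t * v))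

lemma line_deriv (z v : ℂ) (t : ℝ) : HasDerivAt (fun s : ℝ => z + s * v) v t := by
  simpa using ((ofRealCLM.hasDerivAt (x := t)).mul_const v).const_add z

lemma Fline_deriv (p : ℝ) {z v : ℂ} {t : ℝ} (h : -(z + t * v) ∈ slitPlane) :
    HasDerivAt (fun s : ℝ => FF p (z + s * v)) (p * FF p (z + t * v) * (z + t * v)⁻¹ * v) t := by
  have := (FF_deriv p h).comp_of_eq t (line_deriv z v t) rfl
  exact this

lemma seg_deriv (p : ℝ) {z v : ℂ} {t : ℝ} (h : -(z + t * v) ∈ slitPlane) :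
    deriv (seg p z v) t = toW (p * FF p (z + t * v) * (z + t * v)⁻¹ * v) :=
  (toW.hasFDerivAt.comp_hasDerivAt t (Fline_deriv p h)).deriv

lemma seg_deriv2 (p : ℝ) {z v : ℂ} {t : ℝ} (h : -(z + t * v) ∈ slitPlane) :
    deriv (deriv (seg p z v)) t
      = toW (p * (p - 1) * FF p (z + t * v) * ((z + t * v)⁻¹ * v) ^ 2) := by
  have h0 : z + t * v ≠ 0 := fun h' => slitPlane_ne_zero h (by simp [h'])
  have hc : Continuous fun s : ℝ => -(z + s * v) := by fun_prop
  have h1 : deriv (seg p z v) =ᶠ[𝓝 t]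
      fun s : ℝ => toW (p * FF p (z + s * v) * (z + s * v)⁻¹ * v) := by
    filter_upwards [hc.continuousAt.eventually_mem (isOpen_slitPlane.mem_nhds h)] with s hs
    exact seg_deriv p hs
  rw [h1.deriv_eq]
  have h2 := ((((Fline_deriv p h).const_mul (p : ℂ)).mul ((line_deriv z v t).inv h0)).mul_const v)
  have h3 := (toW.hasFDerivAt.comp_hasDerivAt t h2).deriv
  refine Eq.trans h3 ?_
  congr 1
  simp only [Pi.inv_apply]
  field_simp
  ring

lemma seg_smooth (p : ℝ) {z v : ℂ} {t : ℝ} (h : -(z + t * v) ∈ slitPlane) :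
    ContDiffAt ℝ ∞ (seg p z v) t := by
  have h1 : ContDiffAt ℝ ∞ (fun s : ℝ => -(z + s * v)) t := by
    have : ContDiff ℝ ∞ fun s : ℝ => (s : ℂ) := ofRealCLM.contDiff
    fun_prop
  have h2 : ContDiffAt ℝ ∞ (fun s : ℝ => log (-(z + s * v))) t :=
    ContDiffAt.comp (g := log) t ((contDiffAt_log h).restrict_scalars ℝ) h1
  have h3 : ContDiffAt ℝ ∞ (fun s : ℝ => FF p (z + s * v)) t :=
    ((contDiffAt_const.mul h2).cexp).neg
  exact toW.contDiff.contDiffAt.comp t h3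

lemma seg_geod {p : ℝ} (hp : 0 < p) {z v : ℂ} {t : ℝ} (h : -(z + t * v) ∈ slitPlane)
    (h1 : 1 < ‖z + t * v‖) (a : Fin 2) :
    deriv (deriv (seg p z v)) t a + ∑ i, ∑ j, chr (gm (1 - p⁻¹)) (seg p z v t) a i j
      * deriv (seg p z v) t i * deriv (seg p z v) t j = 0 := by
  have h2 := FF_rr hp h1
  rw [seg_deriv2 p h, seg_deriv p h]
  simp only [seg, gm_chr _ h2, mul_assoc (p * FF p (z + t * v))]
  generalize FF p (z + t * v) = w at h2 ⊢
  generalize (z + t * v)⁻¹ * v = k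
  have h3 : rr (toW w) = w.re ^ 2 + w.im ^ 2 := rfl
  have h4 : w.re ^ 2 + w.im ^ 2 ≠ 0 := by rw [← h3]; linarith
  rw [h3]
  fin_cases a <;> simp [Fin.sum_univ_two, dl, pow_two] <;> simp only [← pow_two] <;>
    field_simp <;> ring

lemma FF_inj {p : ℝ} (hp : 0 < p) {z w : ℂ} (hz : z ≠ 0) (hw : w ≠ 0)
    (h1 : |arg (-z)| ≤ Real.pi / p) (h2 : |arg (-w)| ≤ Real.pi / p) (h : FF p z = FF p w) :
    z = w ∨ (|arg (-z)| = Real.pi / p ∧ |arg (-w)| = Real.pi / p ∧ arg (-z) ≠ arg (-w)) := by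
  obtain ⟨n, hn⟩ := exp_eq_exp_iff_exists_int.1 (neg_injective h)
  have hre := congrArg re hn
  have him := congrArg im hn
  simp [log_re, log_im, hp.ne'] at hre him
  have h3 : ‖z‖ = ‖w‖ :=
    Real.log_injOn_pos (norm_pos_iff.2 hz) (norm_pos_iff.2 hw) hre
  by_cases h4 : arg (-z) = arg (-w)
  · left
    exact neg_injective (ext_norm_arg (by simpa using h3) h4)
  · right
    have hn0 : n ≠ 0 := by
      rintro rfl
      simp [hp.ne'] at him
      exact h4 him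
    have h5 : (1 : ℝ) ≤ |(n : ℝ)| := by
      rw [← Int.cast_abs]
      exact_mod_cast Int.one_le_abs hn0
    have h6 : p * |arg (-z) - arg (-w)| = |(n : ℝ)| * (2 * Real.pi) := by
      rw [← abs_of_pos hp, ← abs_mul, ← abs_of_pos Real.two_pi_pos, ← abs_mul]
      congr 1
      linarith
    have h7 := abs_sub (arg (-z)) (arg (-w))
    rw [le_div_iff₀ hp] at h1 h2
    have h8 : 2 * Real.pi ≤ p * |arg (-z)| + p * |arg (-w)| := by
      nlinarith [Real.pi_pos]
    refine ⟨?_, ?_, h4⟩ <;> rw [eq_div_iff hp.ne'] <;> linarith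

lemma FF_conj (p : ℝ) {z : ℂ} (hz : -z ∈ slitPlane) : FF p (conj z) = conj (FF p z) := by
  rw [FF, FF, map_neg, ← exp_conj, map_mul, conj_ofReal, ← log_conj _ (slitPlane_arg_ne_pi hz),
    map_neg]

lemma arg_left {p : ℝ} (hp : 0 < p) (hp2 : p ≤ 2) {z : ℂ} (hz : z.re < 0) :
    |arg (-z)| < Real.pi / p := by
  have h1 : |arg (-z)| < Real.pi / 2 := abs_arg_lt_pi_div_two_iff.2 (Or.inl (by simpa using hz))
  exact h1.trans_le (div_le_div_of_nonneg_left Real.pi_pos.le hp hp2)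

lemma arg_up {γ : ℝ} (h1 : γ < Real.pi) {z : ℂ} (hz : 0 < z.im)
    (h : 0 < z.im * Real.cos γ - z.re * Real.sin γ) : |arg (-z)| < Real.pi - γ := by
  have h2 : arg (-z) < 0 := arg_neg_iff.2 (by simpa using hz)
  rw [abs_of_neg h2]
  by_contra h3
  have h4 := neg_pi_lt_arg (-z)
  have h5 : 0 ≤ Real.sin (arg (-z) - γ + 2 * Real.pi) :=
    Real.sin_nonneg_of_nonneg_of_le_pi (by linarith) (by linarith)
  rw [Real.sin_add_two_pi, Real.sin_sub] at h5
  have h6 := norm_mul_cos_arg (-z)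
  have h7 := norm_mul_sin_arg (-z)
  have h8 := mul_nonneg (norm_nonneg (-z)) h5
  simp only [neg_re, neg_im] at h6 h7
  have h9 : ‖-z‖ * (Real.sin (arg (-z)) * Real.cos γ - Real.cos (arg (-z)) * Real.sin γ)
      = -z.im * Real.cos γ - -z.re * Real.sin γ := by
    rw [← h6, ← h7]
    ring
  linarith

lemma arg_end {γ R : ℝ} (h0 : 0 < γ) (h1 : γ < Real.pi) (hR : 0 < R) :
    arg (-((R : ℂ) * (Real.cos γ + Real.sin γ * I))) = -(Real.pi - γ) := by
  have h2 := arg_mul_cos_add_sin_mul_I hR (θ := γ - Real.pi) ⟨by linarith, by linarith⟩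
  rw [neg_sub, ← h2]
  congr 1
  push_cast
  rw [cos_sub_pi, sin_sub_pi]
  ring

lemma FF_end {p : ℝ} (hp : 0 < p) {z : ℂ} (h : arg (-z) = -(Real.pi / p)) :
    conj (FF p z) = FF p z := by
  rw [conj_eq_iff_im, FF, neg_im, exp_im]
  have : ((p : ℂ) * log (-z)).im = -Real.pi := by
    simp only [mul_im, ofReal_re, ofReal_im, log_im, h, zero_mul, add_zero]
    field_simp
  simp [this]

lemma unitv_eq (φ : W → ℝ) (x : W) (K d : ℂ) {l : ℝ} (hl : 0 < l) (hd : ‖d‖ = 1) :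
    unitv (conf φ) x (toW (K * (l * d)))
      = toW ((((Real.exp (φ x))⁻¹ * ‖K‖⁻¹ : ℝ) : ℂ) * K * d) := by
  have h1 : Real.sqrt (sq (conf φ) x (toW (K * (l * d)))) = Real.exp (φ x) * ‖K‖ * l := by
    have h2 : toW (K * (l * d)) 0 ^ 2 + toW (K * (l * d)) 1 ^ 2 = (‖K‖ * l) ^ 2 := by
      have : ‖K * (l * d)‖ = ‖K‖ * l := by simp [hd, abs_of_pos hl]
      rw [← this, Complex.sq_norm, normSq_apply, toW0, toW1]
      ring
    rw [conf_sq, h2, two_mul, Real.exp_add, Real.sqrt_eq_iff_mul_self_eq (by positivity)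
      (by positivity)]
    ring
  rw [unitv, h1, ← map_smul]
  congr 1
  have h3 : (l : ℂ) ≠ 0 := by exact_mod_cast hl.ne'
  simp only [real_smul, mul_inv]
  push_cast
  field_simp

end Pool.Agent.H.MP_34cb49_gt
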