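import Pool.Agent.H.MP_34cb49_gt.B

set_option linter.unusedSimpArgs false

open scoped ContDiff Topology ComplexConjugate
open Complex Set

namespace Pool.Agent.H.MP_34cb49_gt

structure Cfg where
  p : ℝ
  γ : ℝ
  O : ℂ
  X : ℂ
  u : ℂ
  a : ℂ
  b : ℂ
  μ : ℝ
  τ : ℝ
  ν : ℝ
  s : ℝ
  R : ℝ
  p0 : 0 < p
  p2 : p ≤ 2
  hγ : Real.pi - γ = Real.pi / p
  γ0 : 0 < γ
  μ0 : 0 < μ
  τ0 : 0 < τ
  ν0 : 0 < ν
  s0 : 0 < s
  R0 : 0 < R
  nu : ‖u‖ = 1
  na : ‖a‖ = 1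
  nb : ‖b‖ = 1
  sum : u + a + b = 0
  hX : O + τ * b = X
  Xim : X.im = 0
  hA : O + μ * a = X + ν * conj b
  hE : O + s * u = R * (Real.cos γ + Real.sin γ * I)
  Ore : O.re < -1
  Oim : 1 < O.im
  ure : 0 < u.re
  uim : 0 < u.im
  are : a.re < 0
  aim : 0 < a.im
  bre : b.re < 0
  bim : b.im < 0
  wedge : u.im * Real.cos γ - u.re * Real.sin γ < 0
  ab : a.re * b.im + a.im * b.re ≠ 0

lemma indep {x y : ℝ} {v w : ℂ} (h : (x : ℂ) * v = y * w) (hd : v.re * w.im - v.im * w.re ≠ 0) :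
    x = 0 ∧ y = 0 := by
  have h1 := congrArg re h
  have h2 := congrArg im h
  simp only [mul_re, mul_im, ofReal_re, ofReal_im, zero_mul, sub_zero, add_zero] at h1 h2
  constructor
  · refine (mul_eq_zero.1 ?_).resolve_right hd
    linear_combination w.im * h1 - w.re * h2
  · refine (mul_eq_zero.1 ?_).resolve_right hd
    linear_combination v.im * h1 - v.re * h2

namespace Cfg

variable (C : Cfg)

noncomputable def z0 : Fin 4 → ℂ := ![C.O, C.O, C.O, C.X]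
noncomputable def dv : Fin 4 → ℂ := ![C.μ * C.a, C.τ * C.b, C.s * C.u, C.ν * conj C.b]
noncomputable def P (e : Fin 4) (t : ℝ) : ℂ := C.z0 e + t * C.dv e

lemma γ1 : C.γ < Real.pi := by
  have := div_pos Real.pi_pos C.p0
  linarith [C.hγ]

lemma Xre : C.X.re = C.O.re + C.τ * C.b.re := by
  rw [← C.hX]
  simp

lemma Xim' : C.O.im + C.τ * C.b.im = 0 := by
  rw [← C.Xim, ← C.hX]
  simp

lemma Pre0 (t : ℝ) : (C.P 0 t).re = C.O.re + t * (C.μ * C.a.re) := by simp [P, z0, dv]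
lemma Pim0 (t : ℝ) : (C.P 0 t).im = C.O.im + t * (C.μ * C.a.im) := by simp [P, z0, dv]
lemma Pre1 (t : ℝ) : (C.P 1 t).re = C.O.re + t * (C.τ * C.b.re) := by simp [P, z0, dv]
lemma Pim1 (t : ℝ) : (C.P 1 t).im = (1 - t) * C.O.im := by
  simp [P, z0, dv]
  linear_combination t * C.Xim'
lemma Pre2 (t : ℝ) : (C.P 2 t).re = C.O.re + t * (C.s * C.u.re) := by simp [P, z0, dv]
lemma Pim2 (t : ℝ) : (C.P 2 t).im = C.O.im + t * (C.s * C.u.im) := by simp [P, z0, dv]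
lemma Pre3 (t : ℝ) : (C.P 3 t).re = C.O.re + C.τ * C.b.re + t * (C.ν * C.b.re) := by
  simp [P, z0, dv, Xre]
lemma Pim3 (t : ℝ) : (C.P 3 t).im = t * (C.ν * -C.b.im) := by simp [P, z0, dv, C.Xim]

lemma left {e : Fin 4} (he : e ≠ 2) {t : ℝ} (ht : 0 ≤ t) : (C.P e t).re < -1 := by
  have h0 := C.Ore
  have h1 := mul_nonneg ht (mul_pos C.μ0 (neg_pos.2 C.are)).le
  have h2 := mul_nonneg ht (mul_pos C.τ0 (neg_pos.2 C.bre)).le
  have h3 := mul_nonneg ht (mul_pos C.ν0 (neg_pos.2 C.bre)).le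
  have h4 := mul_pos C.τ0 (neg_pos.2 C.bre)
  fin_cases e
  · exact (C.Pre0 t).trans_lt (by linarith)
  · exact (C.Pre1 t).trans_lt (by linarith)
  · exact absurd rfl he
  · exact (C.Pre3 t).trans_lt (by linarith)

lemma up {t : ℝ} (ht : 0 ≤ t) : 1 < (C.P 2 t).im := by
  have := mul_nonneg ht (mul_pos C.s0 C.uim).le
  rw [Pim2]
  linarith [C.Oim]

lemma im_pos (e : Fin 4) {t : ℝ} (ht : t ∈ Icc (0 : ℝ) 1) :
    0 ≤ (C.P e t).im ∧ ((C.P e t).im = 0 → t = 0 ∨ t = 1) := by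
  have h0 := C.Oim
  have h1 := mul_nonneg ht.1 (mul_pos C.μ0 C.aim).le
  have h2 := C.up ht.1
  have h3 := mul_pos C.ν0 (neg_pos.2 C.bim)
  fin_cases e
  · have : 0 < (C.P 0 t).im := by rw [Pim0]; linarith
    exact ⟨this.le, fun h => absurd h this.ne'⟩
  · refine ⟨(C.Pim1 t).symm ▸ mul_nonneg (by linarith [ht.2]) (by linarith), fun h => Or.inr ?_⟩
    have h4 := (C.Pim1 t).symm.trans h
    rcases mul_eq_zero.1 h4 with h5 | h5 <;> linarith
  · have : 0 < (C.P 2 t).im := by linarith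
    exact ⟨this.le, fun h => absurd h this.ne'⟩
  · refine ⟨(C.Pim3 t).symm ▸ mul_nonneg ht.1 h3.le, fun h => Or.inl ?_⟩
    have h4 := (C.Pim3 t).symm.trans h
    rcases mul_eq_zero.1 h4 with h5 | h5 <;> linarith

lemma big (e : Fin 4) {t : ℝ} (ht : 0 ≤ t) : 1 < ‖C.P e t‖ := by
  by_cases he : e = 2
  · subst he
    exact (C.up ht).trans_le (im_le_norm _)
  · have h1 := C.left he ht
    have h2 := abs_re_le_norm (C.P e t)
    have h3 := neg_abs_le (C.P e t).re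
    linarith

lemma slit (e : Fin 4) {t : ℝ} (ht : 0 ≤ t) : -C.P e t ∈ slitPlane := by
  by_cases he : e = 2
  · subst he
    right
    have := C.up ht
    simp only [neg_im, ne_eq, neg_eq_zero]
    linarith
  · left
    have := C.left he ht
    simp only [neg_re]
    linarith

lemma P21 : C.P 2 1 = C.R * (Real.cos C.γ + Real.sin C.γ * I) := by
  rw [← C.hE]
  simp [P, z0, dv]

lemma arg21 : arg (-C.P 2 1) = -(Real.pi / C.p) := by
  rw [P21, arg_end C.γ0 C.γ1 C.R0, C.hγ]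

lemma arg_lt (e : Fin 4) {t : ℝ} (ht : t ∈ Icc (0 : ℝ) 1) (h : e ≠ 2 ∨ t ≠ 1) :
    |arg (-C.P e t)| < Real.pi / C.p := by
  by_cases he : e = 2
  · subst he
    have h1 : t < 1 := lt_of_le_of_ne ht.2 (h.resolve_left (by simp))
    rw [← C.hγ]
    refine arg_up C.γ1 (by linarith [C.up ht.1]) ?_
    have h2 := congrArg re C.hE
    have h3 := congrArg im C.hE
    simp [-ofReal_cos, -ofReal_sin] at h2 h3
    rw [Pim2, Pre2]
    have h4 := mul_pos (mul_pos (sub_pos.2 h1) C.s0) (neg_pos.2 C.wedge)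
    have h5 : (C.O.im + t * (C.s * C.u.im)) * Real.cos C.γ
        - (C.O.re + t * (C.s * C.u.re)) * Real.sin C.γ
        = (1 - t) * C.s * -(C.u.im * Real.cos C.γ - C.u.re * Real.sin C.γ) := by
      linear_combination Real.cos C.γ * h3 - Real.sin C.γ * h2
    rwa [h5]
  · exact arg_left C.p0 C.p2 (by linarith [C.left he ht.1])

lemma arg_le (e : Fin 4) {t : ℝ} (ht : t ∈ Icc (0 : ℝ) 1) :
    |arg (-C.P e t)| ≤ Real.pi / C.p := by
  by_cases h : e ≠ 2 ∨ t ≠ 1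
  · exact (C.arg_lt e ht h).le
  · push Not at h
    rw [h.1, h.2, arg21, abs_neg, abs_of_pos (div_pos Real.pi_pos C.p0)]

lemma cross : 0 < C.a.im * C.u.re - C.a.re * C.u.im := by
  have := mul_pos C.aim C.ure
  have := mul_pos (neg_pos.2 C.are) C.uim
  linarith

lemma disj_lt {e f : Fin 4} (hef : e < f) {s t : ℝ} (hs : s ∈ Icc (0 : ℝ) 1)
    (ht : t ∈ Icc (0 : ℝ) 1) (h : C.P e s = C.P f t) : (s = 0 ∨ s = 1) ∧ (t = 0 ∨ t = 1) := by
  have c := C.cross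
  have s1 := congrArg re C.sum
  have s2 := congrArg im C.sum
  simp only [add_re, add_im, zero_re, zero_im] at s1 s2
  have hb1 : C.b.re = -C.u.re - C.a.re := by linarith
  have hb2 : C.b.im = -C.u.im - C.a.im := by linarith
  have z : ∀ {x l : ℝ}, 0 < l → x * l = 0 → x = 0 := fun hl h => (mul_eq_zero.1 h).resolve_right hl.ne'
  fin_cases e <;> fin_cases f <;> simp at hef <;> simp [P, z0, dv] at h
  · obtain ⟨h1, h2⟩ := indep (x := s * C.μ) (y := t * C.τ) (v := C.a) (w := C.b)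
      (by push_cast; linear_combination h) (by rw [hb1, hb2]; intro h3; nlinarith)
    exact ⟨Or.inl (z C.μ0 h1), Or.inl (z C.τ0 h2)⟩
  · obtain ⟨h1, h2⟩ := indep (x := s * C.μ) (y := t * C.s) (v := C.a) (w := C.u)
      (by push_cast; linear_combination h) (by intro h3; nlinarith)
    exact ⟨Or.inl (z C.μ0 h1), Or.inl (z C.s0 h2)⟩
  · obtain ⟨h1, h2⟩ := indep (x := (s - 1) * C.μ) (y := (t - 1) * C.ν) (v := C.a) (w := conj C.b)
      (by push_cast; linear_combination h - C.hA)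
      (by simp only [conj_re, conj_im]; intro h3; apply C.ab; linarith)
    exact ⟨Or.inr (by linarith [z C.μ0 h1]), Or.inr (by linarith [z C.ν0 h2])⟩
  · obtain ⟨h1, h2⟩ := indep (x := s * C.τ) (y := t * C.s) (v := C.b) (w := C.u)
      (by push_cast; linear_combination h) (by rw [hb1, hb2]; intro h3; nlinarith)
    exact ⟨Or.inl (z C.τ0 h1), Or.inl (z C.s0 h2)⟩
  · obtain ⟨h1, h2⟩ := indep (x := (s - 1) * C.τ) (y := t * C.ν) (v := C.b) (w := conj C.b)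
      (by push_cast; linear_combination h - C.hX)
      (by simp only [conj_re, conj_im]; intro h3; nlinarith [mul_pos_of_neg_of_neg C.bre C.bim])
    exact ⟨Or.inr (by linarith [z C.τ0 h1]), Or.inl (z C.ν0 h2)⟩
  · exfalso
    have h1 := congrArg re h
    simp [Xre] at h1
    have h2 := mul_nonneg hs.1 (mul_pos C.s0 C.ure).le
    have h3 := mul_nonneg ht.1 (mul_pos C.ν0 (neg_pos.2 C.bre)).le
    have h4 := mul_pos C.τ0 (neg_pos.2 C.bre)
    linarith

lemma disj {e f : Fin 4} (hef : e ≠ f) {s t : ℝ} (hs : s ∈ Icc (0 : ℝ) 1)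
    (ht : t ∈ Icc (0 : ℝ) 1) (h : C.P e s = C.P f t) : (s = 0 ∨ s = 1) ∧ (t = 0 ∨ t = 1) := by
  rcases lt_or_gt_of_ne hef with h1 | h1
  · exact C.disj_lt h1 hs ht h
  · exact (C.disj_lt h1 ht hs h.symm).symm

lemma dv_ne (e : Fin 4) : C.dv e ≠ 0 := by
  have h1 : C.a ≠ 0 := by rw [← norm_ne_zero_iff, C.na]; simp
  have h2 : C.b ≠ 0 := by rw [← norm_ne_zero_iff, C.nb]; simp
  have h3 : C.u ≠ 0 := by rw [← norm_ne_zero_iff, C.nu]; simp
  fin_cases e <;> simp [dv, h1, h2, h3, C.μ0.ne', C.τ0.ne', C.s0.ne', C.ν0.ne']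

end Cfg

end Pool.Agent.H.MP_34cb49_gt
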