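import Pool.Agent.H.MP_34cb49_gt.C

set_option linter.unusedSimpArgs false

open scoped ContDiff Topology ComplexConjugate
open Complex Set

namespace Pool.Agent.H.MP_34cb49_gt

noncomputable def cj (b : Bool) (z : ℂ) : ℂ := if b then conj z else z

def side : Fin 8 → Bool := ![false, false, false, false, true, true, true, true]
def base : Fin 8 → Fin 4 := ![0, 1, 2, 3, 0, 1, 2, 3]

lemma cj_inj (b : Bool) {z w : ℂ} (h : cj b z = cj b w) : z = w := by
  cases b
  · exact h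
  · exact (starRingEnd ℂ).injective h

lemma cj_norm (b : Bool) (z : ℂ) : ‖cj b z‖ = ‖z‖ := by cases b <;> simp [cj]

lemma cj_slit (b : Bool) {z : ℂ} (h : -z ∈ slitPlane) : -cj b z ∈ slitPlane := by
  cases b
  · exact h
  · simpa [cj, mem_slitPlane_iff] using h

lemma cj_arg (b : Bool) {z : ℂ} (h : -z ∈ slitPlane) : |arg (-cj b z)| = |arg (-z)| := by
  cases b
  · rfl
  · have : -cj true z = conj (-z) := by simp [cj]
    rw [this, arg_conj, if_neg (slitPlane_arg_ne_pi h), abs_neg]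

namespace Cfg

variable (C : Cfg)

noncomputable def Z (e : Fin 8) : ℂ := cj (side e) (C.z0 (base e))
noncomputable def V (e : Fin 8) : ℂ := cj (side e) (C.dv (base e))

lemma Q_eq (e : Fin 8) (t : ℝ) : C.Z e + t * C.V e = cj (side e) (C.P (base e) t) := by
  unfold Z V P
  cases side e <;> simp [cj]

noncomputable def vz : Fin 6 → ℂ := ![C.P 0 0, conj (C.P 0 0), C.P 3 0, C.P 0 1, conj (C.P 0 1), C.P 2 1]

noncomputable def net : Net 6 8 where
  pos v := toW (FF C.p (C.vz v))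
  src := ![0, 0, 0, 2, 1, 1, 1, 2]
  tgt := ![3, 2, 5, 3, 4, 2, 5, 4]
  curve e := seg C.p (C.Z e) (C.V e)
  unb := {3, 4, 5}

lemma ne0 (b : Bool) (e : Fin 4) {t : ℝ} (ht : 0 ≤ t) : cj b (C.P e t) ≠ 0 := by
  rw [← norm_ne_zero_iff, cj_norm]
  linarith [C.big e ht]

lemma meet {b b' : Bool} {e f : Fin 4} {s t : ℝ} (hs : s ∈ Icc (0 : ℝ) 1) (ht : t ∈ Icc (0 : ℝ) 1)
    (h : toW (FF C.p (cj b (C.P e s))) = toW (FF C.p (cj b' (C.P f t)))) :
    cj b (C.P e s) = cj b' (C.P f t) ∨ (e = 2 ∧ s = 1 ∧ f = 2 ∧ t = 1) := by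
  have h1 := cj_arg b (C.slit e hs.1)
  have h2 := cj_arg b' (C.slit f ht.1)
  refine (FF_inj C.p0 (C.ne0 b e hs.1) (C.ne0 b' f ht.1) (h1 ▸ C.arg_le e hs) (h2 ▸ C.arg_le f ht)
    (toW_inj h)).imp_right ?_
  rintro ⟨h3, h4, -⟩
  rw [h1] at h3
  rw [h2] at h4
  have h5 : ¬ (e ≠ 2 ∨ s ≠ 1) := fun h => (C.arg_lt e hs h).ne h3
  have h6 : ¬ (f ≠ 2 ∨ t ≠ 1) := fun h => (C.arg_lt f ht h).ne h4
  push Not at h5 h6
  exact ⟨h5.1, h5.2, h6⟩

lemma curve_eq (e : Fin 8) (t : ℝ) :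
    C.net.curve e t = toW (FF C.p (cj (side e) (C.P (base e) t))) := by
  rw [← Q_eq]
  rfl

lemma isSeg (e : Fin 8) : IsSeg (gm (1 - C.p⁻¹)) (C.net.curve e) := by
  refine ⟨fun s hs t ht h => ?_, fun t ht => ?_⟩
  · rw [curve_eq, curve_eq] at h
    rcases C.meet hs ht h with h1 | h1
    · have h2 := cj_inj _ h1
      simpa [P, C.dv_ne] using h2
    · rw [h1.2.1, h1.2.2.2]
  · have h1 : -(C.Z e + t * C.V e) ∈ slitPlane := C.Q_eq e t ▸ cj_slit _ (C.slit _ ht.1)
    have h2 : 1 < ‖C.Z e + t * C.V e‖ := by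
      rw [Q_eq, cj_norm]
      exact C.big _ ht.1
    refine ⟨seg_smooth _ h1, ?_, seg_geod C.p0 h1 h2⟩
    change deriv (seg _ _ _) t ≠ 0
    rw [seg_deriv _ h1]
    intro h
    have h3 := toW_inj (h.trans (map_zero toW).symm)
    have h4 : C.Z e + t * C.V e ≠ 0 := by
      rw [← norm_ne_zero_iff]
      linarith
    have h5 : C.V e ≠ 0 := by
      rw [← norm_ne_zero_iff, V, cj_norm, norm_ne_zero_iff]
      exact C.dv_ne _
    simp [FF_ne, h4, h5, C.p0.ne'] at h3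

lemma P10 : C.P 1 0 = C.P 0 0 := by simp [P, z0]
lemma P20 : C.P 2 0 = C.P 0 0 := by simp [P, z0]
lemma P11 : C.P 1 1 = C.P 3 0 := by simp [P, z0, dv, C.hX]
lemma P31 : C.P 3 1 = C.P 0 1 := by simp [P, z0, dv, C.hA]
lemma P30 : conj (C.P 3 0) = C.P 3 0 := by simp [P, z0, conj_eq_iff_im, C.Xim]
lemma Fend : FF C.p (conj (C.P 2 1)) = FF C.p (C.P 2 1) := by
  rw [FF_conj _ (C.slit 2 zero_le_one), FF_end C.p0 C.arg21]

lemma ends (e : Fin 8) : C.net.curve e 0 = C.net.pos (C.net.src e) ∧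
    C.net.curve e 1 = C.net.pos (C.net.tgt e) := by
  rw [curve_eq, curve_eq]
  fin_cases e <;> simp [net, side, base, cj, vz, P10, P20, P11, P31, P30, Fend]

lemma pos_inj : Function.Injective C.net.pos := by
  have key : ∀ v : Fin 6, ∃ b e t, t ∈ Icc (0 : ℝ) 1 ∧ C.vz v = cj b (C.P e t) ∧
      (e = 2 → v = 5) := by
    intro v
    fin_cases v
    · exact ⟨false, 0, 0, by simp, rfl, by simp⟩
    · exact ⟨true, 0, 0, by simp, rfl, by simp⟩
    · exact ⟨false, 3, 0, by simp, rfl, by simp⟩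
    · exact ⟨false, 0, 1, by simp, rfl, by simp⟩
    · exact ⟨true, 0, 1, by simp, rfl, by simp⟩
    · exact ⟨false, 2, 1, by simp, rfl, by simp⟩
  intro v w h
  obtain ⟨b, e, s, hs, h1, h2⟩ := key v
  obtain ⟨b', f, t, ht, h3, h4⟩ := key w
  change toW (FF C.p (C.vz v)) = toW (FF C.p (C.vz w)) at h
  rw [h1, h3] at h
  rcases C.meet hs ht h with h5 | h5
  · rw [← h1, ← h3] at h5
    have r := congrArg re h5
    have i := congrArg im h5
    have a0 := C.Oim
    have a1 := mul_pos C.μ0 C.aim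
    have a2 := mul_pos C.μ0 (neg_pos.2 C.are)
    have a3 := mul_pos C.s0 C.uim
    have a4 := mul_pos C.s0 C.ure
    clear h1 h2 h3 h4 h5 h key
    fin_cases v <;> fin_cases w <;>
      simp only [vz, Fin.zero_eta, Fin.mk_one, Fin.reduceFinMk, Matrix.cons_val, conj_re, conj_im,
        Pre0, Pim0, Pre2, Pim2, Pre3, Pim3] at r i ⊢ <;>
      first
        | rfl
        | (exfalso; linarith)
  · rw [h2 h5.1, h4 h5.2.2.1]

lemma cross_ends {e f : Fin 8} (hef : e ≠ f) {s t : ℝ} (hs : s ∈ Icc (0 : ℝ) 1)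
    (ht : t ∈ Icc (0 : ℝ) 1) (h : C.net.curve e s = C.net.curve f t) :
    (s = 0 ∨ s = 1) ∧ (t = 0 ∨ t = 1) := by
  rw [curve_eq, curve_eq] at h
  rcases C.meet hs ht h with h1 | h1
  · have hb : ∀ e f : Fin 8, side e = side f → base e = base f → e = f := by decide
    by_cases h2 : side e = side f
    · rw [h2] at h1
      exact C.disj (fun h3 => hef (hb e f h2 h3)) hs ht (cj_inj _ h1)
    · obtain ⟨a1, a2⟩ := C.im_pos (base e) hs
      obtain ⟨a3, a4⟩ := C.im_pos (base f) ht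
      have h3 : (C.P (base e) s).im = -(C.P (base f) t).im := by
        have h4 := congrArg im h1
        revert h2 h4
        cases side e <;> cases side f <;> simp [cj]
        intro h4
        linarith
      exact ⟨a2 (by linarith), a4 (by linarith)⟩
  · exact ⟨Or.inr h1.2.1, Or.inr h1.2.2.2⟩

lemma embedded : C.net.Embedded (gm (1 - C.p⁻¹)) := by
  refine ⟨C.pos_inj, fun e => ⟨C.isSeg e, C.ends e⟩, fun e f hef s hs t ht h =>
    C.cross_ends hef hs ht h, ?_, ?_⟩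
  · simp only [net]
    decide
  · simp only [net]
    decide +kernel

lemma slitQ (e : Fin 8) {t : ℝ} (ht : 0 ≤ t) : -(C.Z e + t * C.V e) ∈ slitPlane :=
  C.Q_eq e t ▸ cj_slit _ (C.slit _ ht)

lemma der (e : Fin 8) {t : ℝ} (ht : 0 ≤ t) : deriv (C.net.curve e) t =
    toW (C.p * FF C.p (cj (side e) (C.P (base e) t)) * (cj (side e) (C.P (base e) t))⁻¹
      * cj (side e) (C.dv (base e))) := by
  rw [← Q_eq]
  exact seg_deriv _ (C.slitQ e ht)

lemma balanced (α : ℝ) (v : Fin 6) (hv : v ∉ C.net.unb) : C.net.Balanced (gm α) v := by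
  have nb' : ‖conj C.b‖ = 1 := by simp [C.nb]
  have na' : ‖conj C.a‖ = 1 := by simp [C.na]
  have nu' : ‖conj C.u‖ = 1 := by simp [C.nu]
  have nb2 : ‖-C.b‖ = 1 := by simp [C.nb]
  have nb3 : ‖-conj C.b‖ = 1 := by simp [C.nb]
  have neg : ∀ (K d : ℂ) (l : ℝ), -toW (K * (l * d)) = toW (K * (l * -d)) := by
    intro K d l
    rw [← map_neg]
    congr 1
    ring
  have hs := congrArg conj C.sum
  simp only [map_add, map_zero] at hs
  have deg : ∀ v : Fin 6, v ∉ ({3, 4, 5} : Finset (Fin 6)) → 3 ≤ (Finset.univ.filter fun e : Fin 8 =>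
      (![0, 0, 0, 2, 1, 1, 1, 2] : Fin 8 → Fin 6) e = v ∨
        (![3, 2, 5, 3, 4, 2, 5, 4] : Fin 8 → Fin 6) e = v).card := by decide
  refine ⟨deg v hv, ?_⟩
  simp only [Finset.sum_filter, Fin.sum_univ_eight, C.der _ le_rfl, C.der _ zero_le_one]
  fin_cases v
  · simp only [net, side, base, cj, dv, P10, P20, Fin.zero_eta, Fin.reduceFinMk, Matrix.cons_val,
      Fin.reduceEq, ↓reduceIte, Bool.false_eq_true, add_zero, zero_add, gm]
    rw [unitv_eq _ _ _ _ C.μ0 C.na, unitv_eq _ _ _ _ C.τ0 C.nb, unitv_eq _ _ _ _ C.s0 C.nu,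
      ← map_add, ← map_add, ← mul_add, ← mul_add, show C.a + C.b + C.u = 0 by
        linear_combination C.sum, mul_zero, map_zero]
  · simp only [net, side, base, cj, dv, P10, P20, Fin.mk_one, Fin.reduceFinMk, Matrix.cons_val,
      Fin.reduceEq, ↓reduceIte, Bool.false_eq_true, add_zero, zero_add, gm, map_mul, conj_ofReal]
    rw [unitv_eq _ _ _ _ C.μ0 na', unitv_eq _ _ _ _ C.τ0 nb', unitv_eq _ _ _ _ C.s0 nu',
      ← map_add, ← map_add, ← mul_add, ← mul_add, show conj C.a + conj C.b + conj C.u = 0 by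
        linear_combination hs, mul_zero, map_zero]
  · simp only [net, side, base, cj, dv, P11, P30, Fin.mk_one, Fin.reduceFinMk, Matrix.cons_val,
      Fin.reduceEq, ↓reduceIte, Bool.false_eq_true, add_zero, zero_add, gm, map_mul, conj_ofReal,
      conj_conj, neg]
    rw [unitv_eq _ _ _ _ C.ν0 nb', unitv_eq _ _ _ _ C.ν0 C.nb, unitv_eq _ _ _ _ C.τ0 nb2,
      unitv_eq _ _ _ _ C.τ0 nb3, ← map_add, ← map_add, ← map_add, ← map_zero toW]
    congr 1
    ring
  all_goals exact absurd (by simp [net]) hv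

lemma isNet : C.net.IsGeodesicNet (gm (1 - C.p⁻¹)) := by
  refine ⟨C.embedded, C.balanced _, ?_⟩
  simp only [net]
  decide

end Cfg

lemma exists_cfg {α : ℝ} (h0 : 0 < α) (h1 : α ≤ 1 / 8) : ∃ C : Cfg, 1 - C.p⁻¹ = α := by
  have hpi := Real.pi_pos
  have hpi4 := Real.pi_lt_four
  set η := Real.pi * α / 2 with hη
  have hη0 : 0 < η := by positivity
  have hη1 : η < 1 / 4 := by nlinarith
  have hpi3 := Real.pi_gt_three
  set c := Real.cos η with hc
  set σ := Real.sin η with hσ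
  set q := Real.sqrt 3 with hq
  have q2 : q ^ 2 = 3 := Real.sq_sqrt (by norm_num)
  have q0 : 0 < q := Real.sqrt_pos.2 (by norm_num)
  have q1 : 1 < q := by nlinarith
  have q3 : q < 2 := by nlinarith
  have σ0 : 0 < σ := Real.sin_pos_of_pos_of_lt_pi hη0 (by linarith)
  have σ1 : σ < 1 / 4 := (Real.sin_lt hη0).trans hη1
  have c0 : 0 < c := Real.cos_pos_of_mem_Ioo ⟨by linarith, by linarith⟩
  have cs : c ^ 2 + σ ^ 2 = 1 := Real.cos_sq_add_sin_sq η
  have c1 : 3 / 4 < c := by nlinarith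
  have cq : q * σ < c := by nlinarith
  have hcos : Real.cos (2 * η) = c ^ 2 - σ ^ 2 := by
    rw [Real.cos_two_mul]
    linarith
  have hsin : Real.sin (2 * η) = 2 * σ * c := Real.sin_two_mul η
  obtain ⟨k, hk, k0⟩ : ∃ k : ℝ, σ * k = 1 ∧ 0 < k := ⟨σ⁻¹, mul_inv_cancel₀ σ0.ne', inv_pos.2 σ0⟩
  have nrm : ∀ x y : ℝ, x ^ 2 + y ^ 2 = 1 → ‖(⟨x, y⟩ : ℂ)‖ = 1 := by
    intro x y h
    rw [norm_eq_sqrt_sq_add_sq]
    simp [h]
  have B0 : 0 < q * c + σ := by positivity
  have c2 : 0 < 2 * c ^ 2 - 1 := by nlinarith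
  refine ⟨⟨(1 - α)⁻¹, 2 * η, ⟨-2, 2 * c * (q * c + σ)⟩, ⟨-2 + 2 * c * (-c + q * σ), 0⟩, ⟨c, σ⟩,
    ⟨(-c - q * σ) / 2, (q * c - σ) / 2⟩, ⟨(-c + q * σ) / 2, (-(q * c) - σ) / 2⟩,
    (q * c + σ) * (c - q * σ) * k, 4 * c, q * k, 2 * c * ((2 * c ^ 2 - 1) * (q * c + σ) * k + 2),
    2 * c ^ 2 * (q * c + σ) * k + 2, inv_pos.2 (by linarith), ?_, ?_, by linarith,
    mul_pos (mul_pos B0 (by linarith)) k0, by linarith, by positivity, by positivity,
    by positivity, nrm _ _ cs, nrm _ _ ?_, nrm _ _ ?_, ?_, ?_, rfl, ?_, ?_, by norm_num, ?_, c0, σ0,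
    ?_, ?_, ?_, ?_, ?_, ?_⟩, by simp⟩
  · rw [inv_le_comm₀ (by linarith) (by norm_num)]
    linarith
  · rw [div_inv_eq_mul, hη]
    ring
  · linear_combination (c ^ 2 + σ ^ 2) / 4 * q2 + cs
  · linear_combination (c ^ 2 + σ ^ 2) / 4 * q2 + cs
  · apply Complex.ext <;> simp <;> ring
  · apply Complex.ext <;> simp <;> ring
  · apply Complex.ext <;> simp
    · linear_combination (-(c - q * σ) * k * q / 2) * cs + (-(c - q * σ) * k * c * σ / 2) * q2
        + (-2 * c * (c - q * σ)) * hk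
    · linear_combination ((q * c + σ) * k * q / 2) * cs + (-(q * c + σ) * k * c * σ / 2) * q2
        + (-2 * c * (q * c + σ)) * hk
  · rw [hcos, hsin]
    apply Complex.ext <;> simp only [add_re, add_im, mul_re, mul_im, ofReal_re, ofReal_im, I_re, I_im]
    · linear_combination (2 * c ^ 2 * (q * c + σ) * k + 2) * cs
    · linear_combination (-2 * c * (q * c + σ)) * hk
  · change 1 < 2 * c * (q * c + σ)
    have e1 := mul_pos c0 σ0
    have e2 := mul_pos (sub_pos.2 q1) (pow_pos c0 2)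
    linarith
  · change (-c - q * σ) / 2 < 0
    linarith [mul_pos q0 σ0]
  · change 0 < (q * c - σ) / 2
    linarith [mul_pos (sub_pos.2 q1) c0]
  · change (-c + q * σ) / 2 < 0
    linarith
  · change (-(q * c) - σ) / 2 < 0
    linarith
  · rw [hcos, hsin]
    change σ * (c ^ 2 - σ ^ 2) - c * (2 * σ * c) < 0
    have : σ * (c ^ 2 - σ ^ 2) - c * (2 * σ * c) = -σ := by linear_combination (-σ) * cs
    linarith
  · change (-c - q * σ) / 2 * ((-(q * c) - σ) / 2) + (q * c - σ) / 2 * ((-c + q * σ) / 2) ≠ 0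
    have : (-c - q * σ) / 2 * ((-(q * c) - σ) / 2) + (q * c - σ) / 2 * ((-c + q * σ) / 2)
        = 2 * (c * σ) := by
      linear_combination (c * σ / 2) * q2
    rw [this]
    positivity

open MeasureTheory Filter in
lemma complete_of {g : Met}
    (hg : ∀ x v : W, (v 0 ^ 2 + v 1 ^ 2) / (1 + (x 0 ^ 2 + x 1 ^ 2)) ≤ sq g x v) :
    IsCompleteMetric g := by
  intro γ hγ ht
  by_contra hL
  set L := ∫⁻ t in Set.Ioi (0 : ℝ), ENNReal.ofReal (Real.sqrt (sq g (γ t) (deriv γ t)))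
  let h : ℝ → ℝ := fun t => Real.log (1 + (γ t 0 ^ 2 + γ t 1 ^ 2)) / 2
  let h' : ℝ → ℝ := fun t =>
    (γ t 0 * deriv γ t 0 + γ t 1 * deriv γ t 1) / (1 + (γ t 0 ^ 2 + γ t 1 ^ 2))
  have hpos : ∀ t, 0 < 1 + (γ t 0 ^ 2 + γ t 1 ^ 2) := fun t => by positivity
  have hd : ∀ t, HasDerivAt h (h' t) t := by
    intro t
    have h1 := hasDerivAt_pi.1 (hγ.differentiable (by simp) t).hasDerivAt
    have h2 := (((((h1 0).pow 2).add ((h1 1).pow 2)).const_add 1).log (hpos t).ne').div_const 2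
    refine h2.congr_deriv ?_
    have := (hpos t).ne'
    simp only [h', Pi.add_apply, Pi.pow_apply]
    field_simp
    norm_num
    ring
  have hc : Continuous h' := by
    have h1 := hγ.continuous
    have h2 := hγ.continuous_deriv le_rfl
    exact Continuous.div (by fun_prop) (by fun_prop) fun t => (hpos t).ne'
  have hb : ∀ t, |h' t| ≤ Real.sqrt (sq g (γ t) (deriv γ t)) := by
    intro t
    refine Real.abs_le_sqrt (le_trans ?_ (hg _ _))
    simp only [h']
    rw [div_pow, div_le_div_iff₀ (pow_pos (hpos t) 2) (hpos t), pow_two (1 + _), ← mul_assoc]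
    refine mul_le_mul_of_nonneg_right ?_ (hpos t).le
    nlinarith [sq_nonneg (γ t 0 * deriv γ t 1 - γ t 1 * deriv γ t 0), sq_nonneg (deriv γ t 0),
      sq_nonneg (deriv γ t 1)]
  have hT : ∀ T, 0 ≤ T → h T - h 0 ≤ L.toReal := by
    intro T hT
    rw [← intervalIntegral.integral_eq_sub_of_hasDerivAt (fun t _ => hd t)
      (hc.intervalIntegrable _ _), intervalIntegral.integral_of_le hT,
      ← ENNReal.ofReal_le_iff_le_toReal hL]
    refine (Real.ofReal_le_enorm _).trans ((enorm_integral_le_lintegral_enorm _).trans ?_)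
    refine (lintegral_mono_set Set.Ioc_subset_Ioi_self).trans (lintegral_mono fun t => ?_)
    rw [Real.enorm_eq_ofReal_abs]
    exact ENNReal.ofReal_le_ofReal (hb t)
  have h1 : Tendsto h atTop atTop := by
    refine Tendsto.atTop_div_const two_pos (Real.tendsto_log_atTop.comp ?_)
    refine tendsto_atTop_mono (fun t => ?_) ht
    rw [pi_norm_le_iff_of_nonneg (hpos t).le]
    intro i
    rw [Real.norm_eq_abs]
    have a0 : |γ t 0| ≤ 1 + (γ t 0 ^ 2 + γ t 1 ^ 2) := by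
      nlinarith [sq_nonneg (|γ t 0| - 1), sq_abs (γ t 0), sq_nonneg (γ t 1), abs_nonneg (γ t 0)]
    have a1 : |γ t 1| ≤ 1 + (γ t 0 ^ 2 + γ t 1 ^ 2) := by
      nlinarith [sq_nonneg (|γ t 1| - 1), sq_abs (γ t 1), sq_nonneg (γ t 0), abs_nonneg (γ t 1)]
    fin_cases i
    exacts [a0, a1]
  obtain ⟨T, h2, h3⟩ := ((h1.eventually_gt_atTop (L.toReal + h 0)).and
    (eventually_ge_atTop 0)).exists
  linarith [hT T h3]

theorem main (ε : ℝ) (hε : 0 < ε) : ∃ g : Met, IsMetric g ∧ IsCompleteMetric g ∧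
    posCurv g < ENNReal.ofReal ε ∧ ∃ N : Net 6 8, N.IsGeodesicNet g ∧ N.unb.card = 3 := by
  obtain ⟨α0, h0, h1⟩ := posCurv_small hε
  have h2 : 0 < min (α0 / 2) (1 / 8) := lt_min (by linarith) (by norm_num)
  have h3 := min_le_left (α0 / 2) (1 / 8)
  have h4 := min_le_right (α0 / 2) (1 / 8)
  obtain ⟨C, hC⟩ := exists_cfg h2 h4
  exact ⟨gm (min (α0 / 2) (1 / 8)), conf_metric (cd_aL _),
    complete_of (gm_lower h2.le (by linarith)), h1 _ h2 (by linarith), C.net, hC ▸ C.isNet, rfl⟩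

end Pool.Agent.H.MP_34cb49_gt
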