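import Mathlib

open scoped ContDiff

namespace Pool.Agent.H.MP_34cb49_gt

abbrev W := Fin 2 → ℝ

abbrev Met := W → Matrix (Fin 2) (Fin 2) ℝ

/-- Coordinate derivative. -/
noncomputable def pd (i : Fin 2) (f : W → ℝ) (x : W) : ℝ := fderiv ℝ f x (Pi.single i 1)

/-- Smooth Riemannian metric on the plane. -/
def IsMetric (g : Met) : Prop := (∀ i j, ContDiff ℝ ∞ fun x => g x i j) ∧ ∀ x, (g x).PosDef

/-- Christoffel symbols `Gamma^a_{ij}`. -/
noncomputable def chr (g : Met) (x : W) (a i j : Fin 2) : ℝ :=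
  ∑ l, (g x)⁻¹ a l *
    (pd i (fun z => g z j l) x + pd j (fun z => g z i l) x - pd l (fun z => g z i j) x) / 2

/-- Curvature `R^a_{bmn}`. -/
noncomputable def riem (g : Met) (x : W) (a b m n : Fin 2) : ℝ :=
  pd m (fun z => chr g z a n b) x - pd n (fun z => chr g z a m b) x
    + ∑ l, (chr g x a m l * chr g x l n b - chr g x a n l * chr g x l m b)

/-- Gaussian curvature. -/
noncomputable def gauss (g : Met) (x : W) : ℝ := (∑ a, g x 0 a * riem g x a 1 0 1) / (g x).det

/-- The integral of the positive part of the curvature against the area form. -/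
noncomputable def posCurv (g : Met) : ENNReal :=
  ∫⁻ x, ENNReal.ofReal (max (gauss g x) 0 * Real.sqrt (g x).det)

/-- `g_x(v, v)`. -/
def sq (g : Met) (x v : W) : ℝ := ∑ i, ∑ j, g x i j * v i * v j

/-- Completeness: every curve that leaves all bounded sets has infinite length. -/
def IsCompleteMetric (g : Met) : Prop :=
  ∀ γ : ℝ → W, ContDiff ℝ 1 γ → Filter.Tendsto (fun t => ‖γ t‖) Filter.atTop Filter.atTop →
    ∫⁻ t in Set.Ioi (0 : ℝ), ENNReal.ofReal (Real.sqrt (sq g (γ t) (deriv γ t))) = ⊤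

/-- The unit vector at `x` in the direction `v`. -/
noncomputable def unitv (g : Met) (x v : W) : W := (Real.sqrt (sq g x v))⁻¹ • v

/-- An injective geodesic segment parametrised by `[0, 1]`. -/
def IsSeg (g : Met) (c : ℝ → W) : Prop :=
  Set.InjOn c (Set.Icc 0 1) ∧ ∀ t ∈ Set.Icc (0 : ℝ) 1, ContDiffAt ℝ ∞ c t ∧ deriv c t ≠ 0 ∧
    ∀ a, deriv (deriv c) t a + ∑ i, ∑ j, chr g (c t) a i j * deriv c t i * deriv c t j = 0

/-- A drawing with `n` vertices and `m` edges, and a set of unbalanced vertices. -/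
structure Net (n m : ℕ) where
  pos : Fin n → W
  src : Fin m → Fin n
  tgt : Fin m → Fin n
  curve : Fin m → ℝ → W
  unb : Finset (Fin n)

/-- The drawing is an embedded connected graph without multiple edges, with geodesic edges. -/
def Net.Embedded {n m : ℕ} (N : Net n m) (g : Met) : Prop :=
  Function.Injective N.pos ∧
  (∀ e, IsSeg g (N.curve e) ∧ N.curve e 0 = N.pos (N.src e) ∧ N.curve e 1 = N.pos (N.tgt e)) ∧
  (∀ e f, e ≠ f → ∀ s ∈ Set.Icc (0 : ℝ) 1, ∀ t ∈ Set.Icc (0 : ℝ) 1, N.curve e s = N.curve f t →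
    (s = 0 ∨ s = 1) ∧ (t = 0 ∨ t = 1)) ∧
  (∀ e f, s(N.src e, N.tgt e) = s(N.src f, N.tgt f) → e = f) ∧
  (SimpleGraph.fromRel fun a b => ∃ e, N.src e = a ∧ N.tgt e = b).Connected

/-- Degree at least three and outward unit tangents summing to zero. -/
def Net.Balanced {n m : ℕ} (N : Net n m) (g : Met) (v : Fin n) : Prop :=
  3 ≤ (Finset.univ.filter fun e => N.src e = v ∨ N.tgt e = v).card ∧
  ∑ e with N.src e = v, unitv g (N.pos v) (deriv (N.curve e) 0)
    + ∑ e with N.tgt e = v, unitv g (N.pos v) (-deriv (N.curve e) 1) = 0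

def Net.IsGeodesicNet {n m : ℕ} (N : Net n m) (g : Met) : Prop :=
  N.Embedded g ∧ (∀ v ∉ N.unb, N.Balanced g v) ∧ ∀ e, ¬ (N.src e ∈ N.unb ∧ N.tgt e ∈ N.unb)

end Pool.Agent.H.MP_34cb49_gt
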